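import Pool.Agent.Q225.IC.Stm

/-!
# Project IC of helper225: elementary inequalities with logarithms
-/

set_option autoImplicit false

namespace Pool.Agent.Q206.IC

open Finset Pool.Agent.Q225.IC

theorem xlog {x t c : ℝ} (hx : 0 ≤ x) (ht : 0 < t) (hc : 0 < c) :
    x * Real.log (c * t) + x - t ≤ x * Real.log (c * x) := by
  rcases hx.eq_or_lt with h | hx
  · rw [← h]
    simp [ht.le]
  · have h1 : Real.log (c * x) = Real.log (c * t) + Real.log (x / t) := by
      rw [← Real.log_mul (by positivity) (by positivity)]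
      congr 1
      field_simp
    have h2 := Real.one_sub_inv_le_log_of_pos (div_pos hx ht)
    have h3 : x * (1 - (x / t)⁻¹) = x - t := by
      field_simp
    have h4 := mul_le_mul_of_nonneg_left h2 hx.le
    rw [h1, mul_add]
    linarith

/-- the log-sum inequality on a finite set with at most `K` elements -/
theorem ls_card {ι : Type*} (s : Finset ι) (p : ι → ℝ) (hp : ∀ i ∈ s, 0 ≤ p i) {c K : ℝ}
    (hc : 0 < c) (hK : 0 < K) (hs : (s.card : ℝ) ≤ K) :
    (∑ i ∈ s, p i) * Real.log (c * ((∑ i ∈ s, p i) / K)) ≤ ∑ i ∈ s, p i * Real.log (c * p i) := by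
  have h0 : 0 ≤ ∑ i ∈ s, p i := Finset.sum_nonneg hp
  rcases h0.eq_or_lt with h | h
  · have h1 : ∀ i ∈ s, p i = 0 := (Finset.sum_eq_zero_iff_of_nonneg hp).1 h.symm
    rw [← h, Finset.sum_eq_zero (fun i hi => by rw [h1 i hi, zero_mul]), zero_mul]
  · have h1 : ∀ i ∈ s, p i * Real.log (c * ((∑ i ∈ s, p i) / K)) + p i - (∑ i ∈ s, p i) / K ≤
        p i * Real.log (c * p i) := fun i hi => xlog (hp i hi) (by positivity) hc
    have h2 := Finset.sum_le_sum h1
    rw [Finset.sum_sub_distrib, Finset.sum_add_distrib, ← Finset.sum_mul, Finset.sum_const,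
      nsmul_eq_mul] at h2
    have h3 : (s.card : ℝ) * ((∑ i ∈ s, p i) / K) ≤ ∑ i ∈ s, p i := by
      rw [← mul_div_assoc, div_le_iff₀ hK]
      nlinarith
    linarith

/-- `x log x ≥ - sqrt x` -/
theorem sq_bound {b T : ℝ} (hb : 0 ≤ b) (hbT : b ≤ T) :
    -Real.sqrt (T * b) ≤ b * Real.log (b / T) := by
  rcases hb.eq_or_lt with h | hb
  · rw [← h]
    simp
  · have hT : 0 < T := hb.trans_le hbT
    have hu : 0 < Real.sqrt (T / b) := Real.sqrt_pos.2 (by positivity)
    have h1 : Real.log (Real.sqrt (T / b)) ≤ Real.sqrt (T / b) / 2 := by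
      have h2 := Real.log_le_sub_one_of_pos (half_pos hu)
      have h3 : Real.log (Real.sqrt (T / b)) = Real.log (Real.sqrt (T / b) / 2) + Real.log 2 := by
        rw [← Real.log_mul (by positivity) (by norm_num)]
        congr 1
        ring
      have h4 : Real.log 2 < 1 := Real.log_two_lt_d9.trans (by norm_num)
      linarith
    have h2 : Real.log (T / b) = 2 * Real.log (Real.sqrt (T / b)) := by
      rw [Real.log_sqrt (by positivity)]
      ring
    have h3 : Real.log (b / T) = -Real.log (T / b) := by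
      rw [← Real.log_inv, inv_div]
    have h4 : Real.sqrt (T * b) = b * Real.sqrt (T / b) := by
      rw [show T * b = (T / b) * b ^ 2 by field_simp, Real.sqrt_mul (by positivity),
        Real.sqrt_sq hb.le]
      ring
    rw [h3, h4, h2]
    nlinarith [mul_le_mul_of_nonneg_left h1 hb.le]

/-- `x log (x/T) ≥ x - T` -/
theorem lin_bound {b T : ℝ} (hb : 0 ≤ b) (hT : 0 ≤ T) (hbT : b ≤ T) :
    b - T ≤ b * Real.log (b / T) := by
  rcases hb.eq_or_lt with h | hb
  · rw [← h]
    simp [hT]
  · have hT : 0 < T := hb.trans_le hbT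
    have := xlog (c := 1 / T) hb.le hT (by positivity)
    rw [show 1 / T * T = 1 by field_simp, Real.log_one, mul_zero, zero_add,
      show 1 / T * b = b / T by ring] at this
    exact this

end Pool.Agent.Q206.IC
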