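import Pool.Agent.Q206.IC.Cnt

/-!
# Project IC of helper225, job CH
-/

set_option autoImplicit false

namespace Pool.Agent.Q206.IC

open Finset Pool.Agent.Q225.IC

theorem log_five_half : (9 / 10 : ℝ) ≤ Real.log (5 / 2) := by
  have h1 : Real.exp 9 ≤ (5 / 2 : ℝ) ^ 10 := by
    have h2 : Real.exp 9 = Real.exp 1 ^ 9 := by
      rw [← Real.exp_nat_mul]
      norm_num
    rw [h2]
    calc Real.exp 1 ^ 9 ≤ (2.72 : ℝ) ^ 9 := by
          gcongr
          exact Real.exp_one_lt_d9.le.trans (by norm_num)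
      _ ≤ (5 / 2 : ℝ) ^ 10 := by norm_num
  have h2 : (9 : ℝ) ≤ Real.log ((5 / 2 : ℝ) ^ 10) := (Real.le_log_iff_exp_le (by positivity)).2 h1
  rw [Real.log_pow] at h2
  push_cast at h2
  linarith

theorem exists_r (L : ℝ) : ∃ r : ℕ, 1 ≤ r ∧ L ≤ Real.log (((r : ℝ) + 1) / 4) := by
  obtain ⟨r, hr⟩ := exists_nat_ge (4 * Real.exp L)
  have h1 := Real.exp_pos L
  refine ⟨r, ?_, ?_⟩
  · have h2 : (0 : ℝ) < r := by linarith
    exact_mod_cast h2
  · rw [Real.le_log_iff_exp_le (by positivity)]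
    linarith

theorem t_CH (hL : S_LEAF) (hK : S_KL0) (hE : S_ENT) (hG : S_GOOD) (hS : S_SUM) : S_CH := by
  obtain ⟨r, hr1, hlam⟩ := exists_r ((10 : ℝ) ^ 16)
  obtain ⟨n0, hn0⟩ := hG r hlam
  obtain ⟨k, hk1, hk2, hk3⟩ : ∃ k : ℕ, 1 ≤ k ∧ n0 ≤ k ∧ r + 1 ≤ k := ⟨n0 + r + 1, by omega, by omega,
    by omega⟩
  refine ⟨r, k, hr1, hk1, ?_⟩
  intro ι _ A B hch ho
  have hcard : Fintype.card (Bits k) = 2 ^ k := by
    simp [Bits]
  have hlt : k < 2 ^ k := Nat.lt_two_pow_self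
  have hcard1 : n0 ≤ Fintype.card (Bits k) := by omega
  have hcard2 : r + 1 ≤ Fintype.card (Bits k) := by omega
  have hcard3 : 2 ≤ Fintype.card (Bits k) := by omega
  have hA := hch.1
  have hB := hch.2.1
  have hleaf := fun i => hL (Bits k) r (A i) (B i) hr1 hcard2 (hA i) (hB i) (ho i)
  choose c hc1 hc2 using hleaf
  have hlogn : Real.log ((Fintype.card (Bits k) : ℕ) : ℝ) = k * Real.log 2 := by
    rw [hcard]
    push_cast
    rw [Real.log_pow]
  simp only [hlogn] at hc2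
  set lam := Real.log (((r : ℝ) + 1) / 4) with hlamdef
  -- abbreviations
  let T : ι → ℝ := fun i => Tt (A i) (B i)
  let bad : ι → ℝ := fun i => Tt (A i) (B i) - ∑ e, mm (A i) (B i) (c i) e
  let E : ι → ℝ := fun i => bad i * Real.log (bad i / T i) +
    ∑ e, mm (A i) (B i) (c i) e * Real.log (10 * mm (A i) (B i) (c i) e / T i)
  let K : ι → ℝ := fun i => ∑ e, KL (A i) (B i) (c i) e
  let tu : ι → ℝ := fun i => ∑ e, ∑ e', if bv e' = bv (flp e) then
    min (mm (A i) (B i) (c i) e) (mm (A i) (B i) (c i) e') else 0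
  have hc2' : ∀ i, T i * (k * Real.log 2) + bad i * lam + E i + K i ≤ Ll (A i) (B i) := hc2
  have hNS : 0 ≤ NS (Bits k) r := by
    unfold NS
    have h1 : (2 : ℝ) ≤ Fintype.card (Bits k) := by exact_mod_cast hcard3
    have h2 : (0 : ℝ) ≤ (Fintype.card (Bits k) : ℝ) - 1 := by linarith
    positivity
  have hmm : ∀ i w e, 0 ≤ mm (A i) (B i) w e := fun i w e =>
    Finset.sum_nonneg fun v _ => Finset.sum_nonneg fun z _ => by
      split_ifs
      · exact mul_nonneg (hA i _) (hB i _)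
      · exact le_rfl
  have hT0 : ∀ i, 0 ≤ T i := fun i =>
    Finset.sum_nonneg fun e _ => Finset.sum_nonneg fun w _ => hmm i w e
  have hK0 : ∀ i, 0 ≤ K i := fun i =>
    Finset.sum_nonneg fun e _ => hK (Bits k) r (A i) (B i) (c i) e hr1 hcard3 (hA i) (hB i)
  have htu0 : ∀ i, 0 ≤ tu i := fun i =>
    Finset.sum_nonneg fun e _ => Finset.sum_nonneg fun e' _ => by
      split_ifs
      · exact le_min (hmm _ _ _) (hmm _ _ _)
      · exact le_rfl
  have hTsum : ∑ i, T i = NS (Bits k) r := by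
    have h1 := (hS (Bits k) r ι A B c hr1 hcard3 hch).1
    show ∑ i, ∑ e, ∑ w, mm (A i) (B i) w e = _
    rw [Finset.sum_comm, Finset.sum_congr rfl fun e _ => h1 e, Finset.sum_const, Finset.card_univ]
    have h3 : Fintype.card Ed = 10 := by decide
    rw [h3, nsmul_eq_mul]
    push_cast
    ring
  by_contra hcon
  push Not at hcon
  have hsum : ∑ i, (T i * (k * Real.log 2) + bad i * lam + E i + K i) ≤ ∑ i, Ll (A i) (B i) :=
    Finset.sum_le_sum fun i _ => hc2' i
  have hsplit : ∑ i, (T i * (k * Real.log 2) + bad i * lam + E i + K i) =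
      NS (Bits k) r * (k * Real.log 2) + ∑ i, (bad i * lam + E i + K i) := by
    rw [← hTsum, Finset.sum_mul, ← Finset.sum_add_distrib]
    exact Finset.sum_congr rfl fun i _ => by ring
  have hgood : ∑ i, (bad i * lam + E i + K i) ≤ NS (Bits k) r := by
    nlinarith
  obtain ⟨g1, g2⟩ := hn0 (Bits k) ι A B c hcard1 hch hc1 hgood
  have g1' : ∑ i, bad i ≤ NS (Bits k) r / 1000 := g1
  have g2' : ∑ i, tu i ≤ NS (Bits k) r / 1000 := g2
  have hent : ∀ i, T i * Real.log (5 / 2) - 2 * (bad i + tu i) - Real.sqrt (T i * bad i) -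
      Real.sqrt (T i * tu i) ≤ E i := fun i =>
    hE (fun e => mm (A i) (B i) (c i) e) (bad i) (T i) (hmm i (c i)) (hc1 i) (by
      show Tt (A i) (B i) = (Tt (A i) (B i) - ∑ e, mm (A i) (B i) (c i) e) +
        ∑ e, mm (A i) (B i) (c i) e
      ring)
  have hcs : ∀ b : ι → ℝ, (∀ i, 0 ≤ b i) → ∑ i, b i ≤ NS (Bits k) r / 1000 →
      ∑ i, Real.sqrt (T i * b i) ≤ 0.032 * NS (Bits k) r := by
    intro b hb hbs
    have h1 : ∑ i, Real.sqrt (T i * b i) ≤ Real.sqrt (∑ i, T i) * Real.sqrt (∑ i, b i) := by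
      have := Real.sum_sqrt_mul_sqrt_le univ hT0 hb
      refine le_trans (le_of_eq ?_) this
      exact Finset.sum_congr rfl fun i _ => Real.sqrt_mul (hT0 i) _
    rw [hTsum, ← Real.sqrt_mul hNS] at h1
    refine h1.trans ?_
    rw [Real.sqrt_le_left (by positivity)]
    have h2 : NS (Bits k) r * ∑ i, b i ≤ NS (Bits k) r * (NS (Bits k) r / 1000) :=
      mul_le_mul_of_nonneg_left hbs hNS
    nlinarith [mul_nonneg hNS hNS]
  have hs1 := hcs bad hc1 g1'
  have hs2 := hcs tu htu0 g2'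
  have hentsum : ∑ i, (T i * Real.log (5 / 2) - 2 * (bad i + tu i) - Real.sqrt (T i * bad i) -
      Real.sqrt (T i * tu i)) ≤ ∑ i, E i := Finset.sum_le_sum fun i _ => hent i
  rw [Finset.sum_sub_distrib, Finset.sum_sub_distrib, Finset.sum_sub_distrib, ← Finset.sum_mul,
    ← Finset.mul_sum, Finset.sum_add_distrib, hTsum] at hentsum
  have hbl : 0 ≤ ∑ i, (bad i * lam + K i) := Finset.sum_nonneg fun i _ =>
    add_nonneg (mul_nonneg (hc1 i) (by linarith [show (0 : ℝ) ≤ 10 ^ 16 by positivity])) (hK0 i)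
  have hfin : ∑ i, (bad i * lam + E i + K i) = ∑ i, (bad i * lam + K i) + ∑ i, E i := by
    rw [← Finset.sum_add_distrib]
    exact Finset.sum_congr rfl fun i _ => by ring
  have h5 := log_five_half
  have h6 := mul_le_mul_of_nonneg_left h5 hNS
  nlinarith

end Pool.Agent.Q206.IC
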