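import Pool.Agent.Q206.IC.Bas

/-!
# Project IC of helper225: counting and sums over the leaves
-/

set_option autoImplicit false
set_option linter.unusedSectionVars false

namespace Pool.Agent.Q206.IC

open Finset Pool.Agent.Q225.IC

section
variable {P : Type} [Fintype P] [DecidableEq P] {r : ℕ}

theorem sum_ne (w : P) (K : ℝ) :
    ∑ v : P, (if v ≠ w then K else 0) = ((Fintype.card P : ℝ) - 1) * K := by
  rw [← Finset.sum_filter, Finset.filter_ne', Finset.sum_const,
    Finset.card_erase_of_mem (mem_univ w), Finset.card_univ, nsmul_eq_mul,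
    Nat.cast_sub (Fintype.card_pos_iff.2 ⟨w⟩), Nat.cast_one]

theorem cnt_ok1 (hC : S_CNT) (w v : P) : ∑ z : Tb P r, (if ok w v z then (1 : ℝ) else 0) =
    if v ≠ w then (r : ℝ) * ((r : ℝ) + 1) ^ (Fintype.card P - 2) else 0 := by
  by_cases h : v ≠ w
  · rw [if_pos h, Finset.sum_boole]
    have e : univ.filter (fun z : Tb P r => ok w v z) =
        univ.filter (fun z : Tb P r => z w = 0 ∧ z v ≠ 0) := by
      ext z
      simp [ok, h]
    rw [e, (hC P r w v h).1]
    push_cast
    ring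
  · rw [if_neg h]
    apply Finset.sum_eq_zero
    intro z _
    rw [if_neg]
    intro hok
    exact h hok.1

theorem cnt_bo1 (hC : S_CNT) (w v : P) : ∑ z : Tb P r, (if bo w v z then (1 : ℝ) else 0) =
    if v ≠ w then ((r : ℝ) + 1) ^ (Fintype.card P - 2) else 0 := by
  by_cases h : v ≠ w
  · rw [if_pos h, Finset.sum_boole]
    have e : univ.filter (fun z : Tb P r => bo w v z) =
        univ.filter (fun z : Tb P r => z w = 0 ∧ z v = 0) := by
      ext z
      simp [bo, h]
    rw [e, (hC P r w v h).2.1]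
    push_cast
    ring
  · rw [if_neg h]
    apply Finset.sum_eq_zero
    intro z _
    rw [if_neg]
    intro hok
    exact h hok.1

theorem cnt_zz1 (hC : S_CNT) (w v : P) :
    ∑ z : Tb P r, (if v ≠ w ∧ z w = 0 then (1 : ℝ) else 0) =
    if v ≠ w then ((r : ℝ) + 1) ^ (Fintype.card P - 1) else 0 := by
  by_cases h : v ≠ w
  · rw [if_pos h, Finset.sum_boole]
    have e : univ.filter (fun z : Tb P r => v ≠ w ∧ z w = 0) =
        univ.filter (fun z : Tb P r => z w = 0) := by
      ext z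
      simp [h]
    rw [e, (hC P r w v h).2.2]
    push_cast
    ring
  · rw [if_neg h]
    apply Finset.sum_eq_zero
    intro z _
    rw [if_neg]
    intro hok
    exact h hok.1

theorem cnt_ok (hC : S_CNT) (w : P) :
    ∑ v, ∑ z : Tb P r, (if ok w v z then (1 : ℝ) else 0) = Nc P r := by
  simp only [cnt_ok1 hC, sum_ne]
  unfold Nc
  ring

theorem cnt_bo (hC : S_CNT) (w : P) : ∑ v, ∑ z : Tb P r, (if bo w v z then (1 : ℝ) else 0) =
    ((Fintype.card P : ℝ) - 1) * ((r : ℝ) + 1) ^ (Fintype.card P - 2) := by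
  simp only [cnt_bo1 hC, sum_ne]

theorem cnt_zz (hC : S_CNT) (w : P) :
    ∑ v, ∑ z : Tb P r, (if v ≠ w ∧ z w = 0 then (1 : ℝ) else 0) =
    ((Fintype.card P : ℝ) - 1) * ((r : ℝ) + 1) ^ (Fintype.card P - 1) := by
  simp only [cnt_zz1 hC, sum_ne]

theorem sum_const' (K : ℝ) : ∑ _w : P, K = (Fintype.card P : ℝ) * K := by
  rw [Finset.sum_const, Finset.card_univ, nsmul_eq_mul]

theorem cnt_ok3 (hC : S_CNT) :
    ∑ w : P, ∑ v, ∑ z : Tb P r, (if ok w v z then (1 : ℝ) else 0) = NS P r / 10 := by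
  simp only [cnt_ok hC, sum_const']
  unfold NS Nc
  ring

theorem cnt_bo3 (hC : S_CNT) :
    ∑ w : P, ∑ v, ∑ z : Tb P r, (if bo w v z then (1 : ℝ) else 0) = Nb P r := by
  simp only [cnt_bo hC, sum_const']
  unfold Nb
  ring

theorem cnt_zz3 (hC : S_CNT) (h2 : 2 ≤ Fintype.card P) :
    ∑ w : P, ∑ v, ∑ z : Tb P r, (if v ≠ w ∧ z w = 0 then (1 : ℝ) else 0) =
      ((r : ℝ) + 1) * Nb P r := by
  simp only [cnt_zz hC, sum_const']
  unfold Nb
  obtain ⟨n, hn⟩ := Nat.exists_eq_add_of_le h2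
  have e1 : Fintype.card P - 1 = n + 1 := by omega
  have e2 : Fintype.card P - 2 = n := by omega
  rw [e1, e2]
  ring

/-- sum over the leaves -/
theorem sum_leaves {ι : Type} [Fintype ι] {A : ι → XX P → ℝ} {B : ι → YY P r → ℝ} (h : Ch A B)
    (Q : P → P → Tb P r → Prop) [∀ w v z, Decidable (Q w v z)] (e : Ed) (b : ZMod 5) :
    ∑ i, ∑ w, ∑ v, ∑ z, (if Q w v z then A i (xin e w v) * B i (b, z) else 0) =
      ∑ w, ∑ v, ∑ z, (if Q w v z then (1 : ℝ) else 0) := by
  rw [Finset.sum_comm]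
  apply Finset.sum_congr rfl
  intro w _
  rw [Finset.sum_comm]
  apply Finset.sum_congr rfl
  intro v _
  rw [Finset.sum_comm]
  apply Finset.sum_congr rfl
  intro z _
  by_cases hQ : Q w v z
  · simp only [if_pos hQ]
    exact h.2.2 _ _
  · simp only [if_neg hQ, Finset.sum_const_zero]

theorem xin_flp (e : Ed) (w v : P) : xin (flp e) w v = xin e v w := by
  obtain ⟨a, i⟩ := e
  rcases i with _ | _ <;> rfl

theorem bo_symm {w v : P} {z : Tb P r} : bo w v z ↔ bo v w z :=
  ⟨fun h => ⟨h.1.symm, h.2.2, h.2.1⟩, fun h => ⟨h.1.symm, h.2.2, h.2.1⟩⟩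

end

theorem t_SUM (hC : S_CNT) : S_SUM := by
  intro P _ _ r ι _ A B c _ h2 hch
  obtain ⟨hA, hB, h1⟩ := hch
  have hAB : ∀ i x y, 0 ≤ A i x * B i y := fun i x y => mul_nonneg (hA i x) (hB i y)
  refine ⟨fun e => ?_, fun e b => ?_, fun e => ?_, fun e b => ?_⟩
  · rw [← cnt_ok3 hC, ← sum_leaves ⟨hA, hB, h1⟩ (fun w v z => ok w v z) e (bv e)]
    rfl
  · rw [← cnt_bo3 hC, ← sum_leaves ⟨hA, hB, h1⟩ (fun w v z => bo w v z) e b]
    apply Finset.sum_le_sum
    intro i _
    exact Finset.single_le_sum (f := fun w => MM (A i) (B i) w e b)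
      (fun w _ => Finset.sum_nonneg fun v _ => Finset.sum_nonneg fun z _ => by
        split_ifs
        · exact hAB _ _ _
        · exact le_rfl) (mem_univ (c i))
  · rw [← cnt_bo3 hC, ← sum_leaves ⟨hA, hB, h1⟩ (fun w v z => bo w v z) e (bv (flp e)),
      ← Finset.sum_add_distrib]
    apply Finset.sum_le_sum
    intro i _
    let h : P → P → ℝ := fun w v => ∑ z : Tb P r,
      if bo w v z then A i (xin e w v) * B i (bv (flp e), z) else 0
    have hh : ∀ w v, 0 ≤ h w v := fun w v => Finset.sum_nonneg fun z _ => by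
      split_ifs
      · exact hAB _ _ _
      · exact le_rfl
    have e1 : MM (A i) (B i) (c i) (flp e) (bv (flp e)) = ∑ w, h w (c i) := by
      unfold MM
      apply Finset.sum_congr rfl
      intro v _
      apply Finset.sum_congr rfl
      intro z _
      rw [xin_flp]
      exact if_congr bo_symm rfl rfl
    have e2 : MM (A i) (B i) (c i) e (bv (flp e)) = ∑ v, h (c i) v := rfl
    have e3 : h (c i) (c i) = 0 := Finset.sum_eq_zero fun z _ => if_neg fun hb => hb.1 rfl
    show _ ≤ ∑ w, ∑ v, h w v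
    rw [e1, e2, ← Finset.add_sum_erase univ (fun w => h w (c i)) (mem_univ (c i)),
      ← Finset.add_sum_erase univ (fun w => ∑ v, h w v) (mem_univ (c i))]
    simp only [e3, zero_add]
    rw [add_comm]
    gcongr with w _
    exact Finset.single_le_sum (f := fun v => h w v) (fun v _ => hh w v) (mem_univ (c i))
  · rw [← cnt_zz3 hC h2, ← sum_leaves ⟨hA, hB, h1⟩ (fun w v z => v ≠ w ∧ z w = 0) e b]
    apply Finset.sum_le_sum
    intro i _
    have e1 : FS (A i) (c i) e * GS (B i) (c i) b = ∑ v, ∑ z : Tb P r,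
        if v ≠ c i ∧ z (c i) = 0 then A i (xin e (c i) v) * B i (b, z) else 0 := by
      unfold FS GS
      rw [Finset.sum_mul_sum]
      apply Finset.sum_congr rfl
      intro v _
      apply Finset.sum_congr rfl
      intro z _
      by_cases ha : v ≠ c i
      · by_cases hb : z (c i) = 0
        · rw [if_pos ha, if_pos hb, if_pos ⟨ha, hb⟩]
        · rw [if_pos ha, if_neg hb, if_neg (fun h => hb h.2 : ¬ (v ≠ c i ∧ z (c i) = 0)),
            mul_zero]
      · rw [if_neg ha, if_neg (fun h => ha h.1 : ¬ (v ≠ c i ∧ z (c i) = 0)), zero_mul]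
    rw [e1]
    exact Finset.single_le_sum (f := fun w => ∑ v, ∑ z : Tb P r,
        if v ≠ w ∧ z w = 0 then A i (xin e w v) * B i (b, z) else 0)
      (fun w _ => Finset.sum_nonneg fun v _ => Finset.sum_nonneg fun z _ => by
        split_ifs
        · exact hAB _ _ _
        · exact le_rfl) (mem_univ (c i))

end Pool.Agent.Q206.IC
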