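import Pool.Agent.Q206.IC.Bas

/-!
# Project IC, job ENT
-/

set_option autoImplicit false

namespace Pool.Agent.Q206.IC

open Finset Pool.Agent.Q225.IC

/-- conflict -/
def Cf (e e' : Ed) : Prop := bv e' = bv (flp e)

instance (e e' : Ed) : Decidable (Cf e e') := inferInstanceAs (Decidable (_ = _))

/-- no conflicts -/
def Ind (I : Finset Ed) : Prop := ∀ e ∈ I, ∀ e' ∈ I, ¬ Cf e e'

theorem cf_self : ∀ e : Ed, ¬ Cf e e := by decide

theorem cf_flp : ∀ (a : ZMod 5), Cf (a, false) (a, true) := by decide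

theorem cf_fun : ∀ i : ZMod 5 → Bool, ∃ a a' : ZMod 5, Cf (a, i a) (a', i a') := by
  have h : ∀ b0 b1 b2 b3 b4 : Bool, ∀ i : ZMod 5 → Bool, i 0 = b0 → i 1 = b1 → i 2 = b2 →
      i 3 = b3 → i 4 = b4 → ∃ a a' : ZMod 5, Cf (a, i a) (a', i a') := by
    intro b0 b1 b2 b3 b4 i h0 h1 h2 h3 h4
    rcases b0 with _ | _ <;> rcases b1 with _ | _ <;> rcases b2 with _ | _ <;>
      rcases b3 with _ | _ <;> rcases b4 with _ | _ <;>
    first
      | exact ⟨0, 1, by rw [h0, h1]; decide⟩
      | exact ⟨1, 0, by rw [h0, h1]; decide⟩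
      | exact ⟨1, 2, by rw [h1, h2]; decide⟩
      | exact ⟨2, 1, by rw [h1, h2]; decide⟩
      | exact ⟨2, 3, by rw [h2, h3]; decide⟩
      | exact ⟨3, 2, by rw [h2, h3]; decide⟩
      | exact ⟨3, 4, by rw [h3, h4]; decide⟩
      | exact ⟨4, 3, by rw [h3, h4]; decide⟩
      | exact ⟨4, 0, by rw [h4, h0]; decide⟩
      | exact ⟨0, 4, by rw [h4, h0]; decide⟩
  intro i
  exact h _ _ _ _ _ i rfl rfl rfl rfl rfl

theorem ind_card {I : Finset Ed} (hI : Ind I) : I.card ≤ 4 := by
  have hinj : Set.InjOn (fun e : Ed => e.1) I := by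
    rintro ⟨a, i⟩ he ⟨a', i'⟩ he' hae
    have haa : a = a' := hae
    subst haa
    rcases i with _ | _ <;> rcases i' with _ | _
    · rfl
    · exact absurd (cf_flp a) (hI _ he _ he')
    · exact absurd (cf_flp a) (hI _ he' _ he)
    · rfl
  by_contra hcon
  have h5 : (I.image fun e : Ed => e.1) = univ := by
    apply Finset.eq_univ_of_card
    rw [Finset.card_image_of_injOn hinj]
    have h1 : (I.image fun e : Ed => e.1).card ≤ Fintype.card (ZMod 5) := Finset.card_le_univ _
    rw [Finset.card_image_of_injOn hinj, ZMod.card] at h1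
    rw [ZMod.card]
    omega
  have h6 : ∀ a : ZMod 5, ∃ i : Bool, ((a, i) : Ed) ∈ I := by
    intro a
    have h7 : a ∈ I.image fun e : Ed => e.1 := by
      rw [h5]
      exact mem_univ a
    obtain ⟨⟨a', i⟩, he, hea⟩ := Finset.mem_image.1 h7
    have haa : a' = a := hea
    subst haa
    exact ⟨i, he⟩
  choose i hi using h6
  obtain ⟨a, a', haa⟩ := cf_fun i
  exact hI _ (hi a) _ (hi a') haa

/-- the minimum with a sum -/
theorem min_sum {ι : Type*} (s : Finset ι) (m : ι → ℝ) (hm : ∀ i, 0 ≤ m i) {x : ℝ} (hx : 0 ≤ x)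
    (h : x ≤ ∑ i ∈ s, m i) : x ≤ ∑ i ∈ s, min x (m i) := by
  by_cases h1 : ∃ i ∈ s, x ≤ m i
  · obtain ⟨i, hi, hxi⟩ := h1
    have h2 := Finset.single_le_sum (f := fun i => min x (m i)) (fun j _ => le_min hx (hm j)) hi
    have h3 : min x (m i) = x := min_eq_left hxi
    simp only [h3] at h2
    exact h2
  · push Not at h1
    rw [Finset.sum_congr rfl fun i hi => min_eq_right (h1 i hi).le]
    exact h

/-- the overlap -/
noncomputable def tau (m : Ed → ℝ) : ℝ :=
  ∑ e, ∑ e', if Cf e e' then min (m e) (m e') else 0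

theorem tau_bound (m : Ed → ℝ) (hm : ∀ e, 0 ≤ m e) : ∃ I : Finset Ed, I.card ≤ 4 ∧
    ∑ e ∈ Iᶜ, m e ≤ tau m := by
  classical
  obtain ⟨I, hI, hmax⟩ := Finset.exists_max_image (univ.filter fun I : Finset Ed => Ind I)
    (fun I => ∑ e ∈ I, m e) ⟨∅, by simp [Ind]⟩
  have hI' : Ind I := (Finset.mem_filter.1 hI).2
  refine ⟨I, ind_card hI', ?_⟩
  let g : Ed → Ed → ℝ := fun e e' => if Cf e e' then min (m e) (m e') else 0
  have hg : ∀ e e', 0 ≤ g e e' := by
    intro e e'
    simp only [g]
    split_ifs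
    · exact le_min (hm e) (hm e')
    · exact le_rfl
  have key : ∀ e ∈ Iᶜ, m e ≤ ∑ e' ∈ I, (g e e' + g e' e) := by
    intro e he
    have heI : e ∉ I := Finset.mem_compl.1 he
    let S := I.filter fun e' => Cf e e' ∨ Cf e' e
    let N := I.filter fun e' => ¬ (Cf e e' ∨ Cf e' e)
    have heN : e ∉ N := fun h => heI (Finset.mem_filter.1 h).1
    have hind : Ind (insert e N) := by
      intro a ha a' ha'
      rcases Finset.mem_insert.1 ha with rfl | ha
      · rcases Finset.mem_insert.1 ha' with rfl | ha'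
        · exact cf_self _
        · exact fun h => (Finset.mem_filter.1 ha').2 (Or.inl h)
      · rcases Finset.mem_insert.1 ha' with rfl | ha'
        · exact fun h => (Finset.mem_filter.1 ha).2 (Or.inr h)
        · exact hI' a (Finset.mem_filter.1 ha).1 a' (Finset.mem_filter.1 ha').1
    have h1 : ∑ e' ∈ insert e N, m e' ≤ ∑ e' ∈ I, m e' := hmax (insert e N) (by simp [hind])
    have h2 : ∑ e' ∈ insert e N, m e' = m e + ∑ e' ∈ N, m e' := Finset.sum_insert heN
    have h3 : ∑ e' ∈ S, m e' + ∑ e' ∈ N, m e' = ∑ e' ∈ I, m e' :=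
      Finset.sum_filter_add_sum_filter_not I _ _
    have h4 : m e ≤ ∑ e' ∈ S, m e' := by
      linarith
    have h5 := min_sum S m hm (hm e) h4
    refine h5.trans ?_
    have h6 : ∑ e' ∈ S, min (m e) (m e') ≤ ∑ e' ∈ S, (g e e' + g e' e) := by
      apply Finset.sum_le_sum
      intro e' he'
      rcases (Finset.mem_filter.1 he').2 with h | h
      · have : g e e' = min (m e) (m e') := if_pos h
        linarith [hg e' e]
      · have : g e' e = min (m e) (m e') := by
          simp only [g]
          rw [if_pos h, min_comm]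
        linarith [hg e e']
    exact h6.trans (Finset.sum_le_sum_of_subset_of_nonneg (Finset.filter_subset _ _)
      fun e' _ _ => add_nonneg (hg _ _) (hg _ _))
  calc ∑ e ∈ Iᶜ, m e ≤ ∑ e ∈ Iᶜ, ∑ e' ∈ I, (g e e' + g e' e) := Finset.sum_le_sum key
    _ = ∑ e ∈ Iᶜ, ∑ e' ∈ I, g e e' + ∑ e' ∈ I, ∑ e ∈ Iᶜ, g e' e := by
        rw [Finset.sum_comm (s := I), ← Finset.sum_add_distrib]
        exact Finset.sum_congr rfl fun e _ => Finset.sum_add_distrib
    _ ≤ ∑ e ∈ Iᶜ, ∑ e', g e e' + ∑ e' ∈ I, ∑ e, g e' e := by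
        apply add_le_add
        · exact Finset.sum_le_sum fun e _ =>
            Finset.sum_le_sum_of_subset_of_nonneg (Finset.subset_univ _) fun e' _ _ => hg _ _
        · exact Finset.sum_le_sum fun e _ =>
            Finset.sum_le_sum_of_subset_of_nonneg (Finset.subset_univ _) fun e' _ _ => hg _ _
    _ = tau m := by
        rw [add_comm]
        exact Finset.sum_add_sum_compl I fun e => ∑ e', g e e'

theorem t_ENT : S_ENT := by
  intro m bad T hm hbad hT
  have htau : (∑ e, ∑ e', if bv e' = bv (flp e) then min (m e) (m e') else 0) = tau m := rfl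
  rw [htau]
  obtain ⟨I, hI, ht⟩ := tau_bound m hm
  have hsum := Finset.sum_add_sum_compl I m
  have hsum2 := Finset.sum_add_sum_compl I fun e => m e * Real.log (10 * m e / T)
  have hM0 : 0 ≤ ∑ e ∈ I, m e := Finset.sum_nonneg fun e _ => hm e
  have ht0 : 0 ≤ ∑ e ∈ Iᶜ, m e := Finset.sum_nonneg fun e _ => hm e
  rw [← hsum2]
  set M := ∑ e ∈ I, m e with hMdef
  set t := ∑ e ∈ Iᶜ, m e with htdef
  have hT0 : 0 ≤ T := by linarith
  rcases hT0.eq_or_lt with h0 | hT0
  · -- everything is zero
    have hb : bad = 0 := by linarith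
    have hall : ∀ e, m e = 0 := by
      intro e
      have h1 : ∑ e, m e = 0 := by linarith
      exact (Finset.sum_eq_zero_iff_of_nonneg fun e _ => hm e).1 h1 e (mem_univ e)
    have h2 : tau m = 0 := by
      unfold tau
      simp [hall]
    rw [← h0, hb, h2]
    simp
  · have hc : (0 : ℝ) < 10 / T := by positivity
    have hr : ∀ e, m e * Real.log (10 * m e / T) = m e * Real.log (10 / T * m e) := by
      intro e
      rw [mul_div_right_comm]
    simp only [hr]
    have h1 : M * Real.log (10 / T * (M / 4)) ≤ ∑ e ∈ I, m e * Real.log (10 / T * m e) :=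
      ls_card I m (fun e _ => hm e) hc (by norm_num) (by exact_mod_cast hI)
    have h2 : t * Real.log (10 / T * (t / 10)) ≤ ∑ e ∈ Iᶜ, m e * Real.log (10 / T * m e) := by
      refine ls_card Iᶜ m (fun e _ => hm e) hc (by norm_num) ?_
      have : (Iᶜ : Finset Ed).card ≤ Fintype.card Ed := Finset.card_le_univ _
      have h3 : Fintype.card Ed = 10 := by decide
      rw [h3] at this
      exact_mod_cast this
    have h3 : 10 / T * (t / 10) = t / T := by ring
    rw [h3] at h2
    have h4 := sq_bound ht0 (show t ≤ T by linarith)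
    have h5 := sq_bound hbad (show bad ≤ T by linarith)
    have h6 : Real.sqrt (T * t) ≤ Real.sqrt (T * tau m) :=
      Real.sqrt_le_sqrt (mul_le_mul_of_nonneg_left ht hT0.le)
    have h7 : M * Real.log (5 / 2) + (M - T) ≤ M * Real.log (10 / T * (M / 4)) := by
      rcases hM0.eq_or_lt with hM | hM
      · rw [← hM]
        simp [hT0.le]
      · have h8 := lin_bound hM.le hT0.le (show M ≤ T by linarith)
        have h9 : Real.log (10 / T * (M / 4)) = Real.log (5 / 2) + Real.log (M / T) := by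
          rw [← Real.log_mul (by norm_num) (by positivity)]
          congr 1
          ring
        rw [h9, mul_add]
        linarith
    have h8 : Real.log (5 / 2) ≤ 1 := by
      rw [Real.log_le_iff_le_exp (by norm_num)]
      have := Real.exp_one_gt_d9
      linarith
    have h9 : 0 ≤ Real.log (5 / 2) := Real.log_nonneg (by norm_num)
    have h10 : T * Real.log (5 / 2) - (bad + t) ≤ M * Real.log (5 / 2) := by
      have : M = T - (bad + t) := by linarith
      rw [this]
      nlinarith
    linarith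

end Pool.Agent.Q206.IC
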