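import Pool.Agent.Q206.IC.Cnt

/-!
# Project IC of helper225, job GOOD
-/

set_option autoImplicit false

namespace Pool.Agent.Q206.IC

open Finset Pool.Agent.Q225.IC

theorem r_ge {r : ℕ} {L : ℝ} (h : L ≤ Real.log (((r : ℝ) + 1) / 4)) :
    4 * (L + 1) ≤ (r : ℝ) + 1 := by
  have h1 := (Real.le_log_iff_exp_le (by positivity)).1 h
  have h2 := Real.add_one_le_exp L
  linarith

/-- the entropy terms of a leaf are at least minus the mass -/
theorem ent_ge (m : Ed → ℝ) (bad T : ℝ) (hm : ∀ e, 0 ≤ m e) (hbad : 0 ≤ bad)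
    (hT : T = bad + ∑ e, m e) :
    -T ≤ bad * Real.log (bad / T) + ∑ e, m e * Real.log (10 * m e / T) := by
  have hM0 : 0 ≤ ∑ e, m e := Finset.sum_nonneg fun e _ => hm e
  have hT0 : 0 ≤ T := by linarith
  rcases hT0.eq_or_lt with h0 | hT0
  · have hb : bad = 0 := by linarith
    have hall : ∀ e, m e = 0 := by
      intro e
      have h1 : ∑ e, m e = 0 := by linarith
      exact (Finset.sum_eq_zero_iff_of_nonneg fun e _ => hm e).1 h1 e (mem_univ e)
    rw [← h0, hb]
    simp [hall]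
  · have hc : (0 : ℝ) < 10 / T := by positivity
    have hr : ∀ e, m e * Real.log (10 * m e / T) = m e * Real.log (10 / T * m e) := by
      intro e
      rw [mul_div_right_comm]
    simp only [hr]
    have h1 : (∑ e, m e) * Real.log (10 / T * ((∑ e, m e) / 10)) ≤
        ∑ e, m e * Real.log (10 / T * m e) := by
      refine ls_card univ m (fun e _ => hm e) hc (by norm_num) ?_
      have h3 : (univ : Finset Ed).card = 10 := by decide
      rw [h3]
      norm_num
    have h3 : 10 / T * ((∑ e, m e) / 10) = (∑ e, m e) / T := by ring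
    rw [h3] at h1
    have h4 := lin_bound hM0 hT0.le (show ∑ e, m e ≤ T by linarith)
    have h5 := lin_bound hbad hT0.le (show bad ≤ T by linarith)
    linarith

theorem t_GOOD (hK : S_KL0) (hB : S_B) (hC : S_C) (hS : S_SUM) (hO : S_OV) : S_GOOD := by
  intro r hlam
  have hr16 : (10 : ℝ) ^ 16 ≤ (r : ℝ) := by
    have := r_ge hlam
    have e : (10 : ℝ) ^ 16 = 10000000000000000 := by norm_num
    rw [e] at this ⊢
    linarith
  have hr1' : (1 : ℝ) ≤ (r : ℝ) := by
    have e : (1 : ℝ) ≤ (10 : ℝ) ^ 16 := by norm_num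
    exact e.trans hr16
  have hr1 : 1 ≤ r := by exact_mod_cast hr1'
  obtain ⟨n1, hn1⟩ := hB r ((10 : ℝ) ^ 16) (1 / 10 ^ 13) hr1 (by positivity) (by positivity)
    (by norm_num)
  obtain ⟨n2, hn2⟩ := hC r ((10 : ℝ) ^ 16) hr1 (by positivity)
  refine ⟨n1 + n2 + 2, ?_⟩
  intro P _ _ ι _ A B c hn hch hbad0 hhyp
  have hP2 : 2 ≤ Fintype.card P := by omega
  have hA := hch.1
  have hBB := hch.2.1
  obtain ⟨s1, s2, s3, -⟩ := hS P r ι A B c hr1 hP2 hch
  set lam := Real.log (((r : ℝ) + 1) / 4) with hlamdef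
  set N := NS P r with hNdef
  set x := Nb P r with hxdef
  have hP2' : (2 : ℝ) ≤ Fintype.card P := by exact_mod_cast hP2
  have hx0 : 0 ≤ x := by
    rw [hxdef]
    unfold Nb
    have h2 : (0 : ℝ) ≤ (Fintype.card P : ℝ) - 1 := by linarith
    positivity
  have hNx : N = 10 * r * x := by
    rw [hNdef, hxdef]
    unfold NS Nb
    ring
  have hN0 : 0 ≤ N := by
    rw [hNx]
    positivity
  have hmmw : ∀ i w e, 0 ≤ mm (A i) (B i) w e := fun i w e =>
    Finset.sum_nonneg fun v _ => Finset.sum_nonneg fun z _ => by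
      split_ifs
      · exact mul_nonneg (hA i _) (hBB i _)
      · exact le_rfl
  let m : ι → Ed → ℝ := fun i e => mm (A i) (B i) (c i) e
  let kl : ι → Ed → ℝ := fun i e => KL (A i) (B i) (c i) e
  let M1 : ι → Ed → ZMod 5 → ℝ := fun i e b => MM (A i) (B i) (c i) e b
  let T : ι → ℝ := fun i => Tt (A i) (B i)
  let bad : ι → ℝ := fun i => Tt (A i) (B i) - ∑ e, mm (A i) (B i) (c i) e
  have hm0 : ∀ i e, 0 ≤ m i e := fun i e => hmmw i (c i) e
  have hkl0 : ∀ i e, 0 ≤ kl i e := fun i e =>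
    hK P r (A i) (B i) (c i) e hr1 hP2 (hA i) (hBB i)
  have hM0 : ∀ i e b, 0 ≤ M1 i e b := fun i e b =>
    Finset.sum_nonneg fun v _ => Finset.sum_nonneg fun z _ => by
      split_ifs
      · exact mul_nonneg (hA i _) (hBB i _)
      · exact le_rfl
  have hbad : ∀ i, 0 ≤ bad i := hbad0
  have hTb : ∀ i, T i = bad i + ∑ e, m i e := fun i => by
    show Tt (A i) (B i) = (Tt (A i) (B i) - ∑ e, mm (A i) (B i) (c i) e) +
      ∑ e, mm (A i) (B i) (c i) e
    ring
  have hTsum : ∑ i, T i = N := by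
    show ∑ i, ∑ e, ∑ w, mm (A i) (B i) w e = _
    rw [Finset.sum_comm, Finset.sum_congr rfl fun e _ => s1 e, Finset.sum_const, Finset.card_univ]
    have h3 : Fintype.card Ed = 10 := by decide
    rw [h3, nsmul_eq_mul]
    push_cast
    ring
  -- the main estimate
  have hE : ∀ i, -T i ≤ bad i * Real.log (bad i / T i) +
      ∑ e, m i e * Real.log (10 * m i e / T i) := fun i =>
    ent_ge (m i) (bad i) (T i) (hm0 i) (hbad i) (hTb i)
  have hhyp' : ∑ i, (bad i * lam + (bad i * Real.log (bad i / T i) +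
      ∑ e, m i e * Real.log (10 * m i e / T i)) + ∑ e, kl i e) ≤ N := hhyp
  have hmain : lam * ∑ i, bad i + ∑ i, ∑ e, kl i e ≤ 2 * N := by
    have h1 : ∑ i, (bad i * lam + -T i + ∑ e, kl i e) ≤ N :=
      (Finset.sum_le_sum fun i _ => by linarith [hE i]).trans hhyp'
    rw [Finset.sum_add_distrib, Finset.sum_add_distrib, ← Finset.sum_mul, Finset.sum_neg_distrib,
      hTsum] at h1
    linarith
  have hbs0 : 0 ≤ ∑ i, bad i := Finset.sum_nonneg fun i _ => hbad i
  have hks0 : 0 ≤ ∑ i, ∑ e, kl i e := Finset.sum_nonneg fun i _ => Finset.sum_nonneg fun e _ =>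
    hkl0 i e
  have hbads : 10 ^ 16 * ∑ i, bad i ≤ 2 * N := by
    have h1 := mul_le_mul_of_nonneg_right hlam hbs0
    linarith
  have hlam0 : 0 ≤ lam := le_trans (by positivity) hlam
  have hkls : ∀ e, ∑ i, kl i e ≤ 2 * N := by
    intro e
    have h1 : ∑ i, kl i e ≤ ∑ i, ∑ e, kl i e := Finset.sum_le_sum fun i _ =>
      Finset.single_le_sum (f := fun e => kl i e) (fun e _ => hkl0 i e) (mem_univ e)
    have h2 : 0 ≤ lam * ∑ i, bad i := mul_nonneg hlam0 hbs0
    linarith
  have hD : (0 : ℝ) < 10 ^ 16 := by positivity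
  have hR0 : (0 : ℝ) < (r : ℝ) + 1 := by positivity
  -- (a)
  have ha : ∀ e, (1 - 2 / 10 ^ 13) * x ≤ ∑ i, M1 i e (bv e) := by
    intro e
    have h1 : N / 10 - ∑ i, bad i ≤ ∑ i, m i e := by
      rw [← s1 e, ← Finset.sum_sub_distrib]
      apply Finset.sum_le_sum
      intro i _
      have h2 : ∑ w, mm (A i) (B i) w e - m i e ≤
          ∑ e, (∑ w, mm (A i) (B i) w e - m i e) :=
        Finset.single_le_sum (f := fun e => ∑ w, mm (A i) (B i) w e - m i e)
          (fun e _ => sub_nonneg.2 (Finset.single_le_sum (f := fun w => mm (A i) (B i) w e)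
            (fun w _ => hmmw i w e) (mem_univ (c i)))) (mem_univ e)
      rw [Finset.sum_sub_distrib] at h2
      have h3 : bad i = ∑ e, ∑ w, mm (A i) (B i) w e - ∑ e, m i e := rfl
      linarith
    have h2 : ∀ i, (1 - 1 / 10 ^ 13) / ((r : ℝ) + 1) * (m i e - kl i e / 10 ^ 16) ≤
        M1 i e (bv e) := by
      intro i
      have h3 : (0 : ℝ) ≤ (1 - 1 / 10 ^ 13) / ((r : ℝ) + 1) := by
        apply div_nonneg _ hR0.le
        norm_num
      by_cases h4 : m i e - kl i e / 10 ^ 16 ≤ 0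
      · exact (mul_nonpos_of_nonneg_of_nonpos h3 h4).trans (hM0 i e _)
      · push Not at h4
        have h5 : 0 ≤ kl i e / 10 ^ 16 := div_nonneg (hkl0 i e) hD.le
        have h6 : 0 < m i e := by linarith
        have h7 : kl i e ≤ 10 ^ 16 * m i e := by
          have h8 : kl i e / 10 ^ 16 < m i e := by linarith
          rw [div_lt_iff₀ hD] at h8
          linarith
        have h8 := hn1 P (A i) (B i) (c i) e (by omega) (hA i) (hBB i) h6 h7
        refine le_trans (mul_le_mul_of_nonneg_left ?_ h3) h8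
        show m i e - kl i e / 10 ^ 16 ≤ m i e
        linarith
    have h3 : (1 - 1 / 10 ^ 13) / ((r : ℝ) + 1) * (∑ i, m i e - (∑ i, kl i e) / 10 ^ 16) ≤
        ∑ i, M1 i e (bv e) := by
      rw [Finset.sum_div, ← Finset.sum_sub_distrib, Finset.mul_sum]
      exact Finset.sum_le_sum fun i _ => h2 i
    refine le_trans ?_ h3
    have h4 : (1 / 10 - 4 / 10 ^ 16) * N ≤ ∑ i, m i e - (∑ i, kl i e) / 10 ^ 16 := by
      have h5 : (∑ i, kl i e) / 10 ^ 16 ≤ 2 * N / 10 ^ 16 := by
        apply div_le_div_of_nonneg_right (hkls e) hD.le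
      have h6 : ∑ i, bad i ≤ 2 * N / 10 ^ 16 := by
        rw [le_div_iff₀ hD]
        linarith
      have h7 : (1 / 10 - 4 / 10 ^ 16) * N = N / 10 - 2 * N / 10 ^ 16 - 2 * N / 10 ^ 16 := by ring
      linarith
    have h5 : (0 : ℝ) ≤ (1 - 1 / 10 ^ 13) / ((r : ℝ) + 1) := by
      apply div_nonneg _ hR0.le
      norm_num
    refine le_trans ?_ (mul_le_mul_of_nonneg_left h4 h5)
    rw [hNx]
    have h6 : (1 : ℝ) - 1 / 10 ^ 16 ≤ (r : ℝ) / ((r : ℝ) + 1) := by
      rw [le_div_iff₀ hR0]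
      have : (10 : ℝ) ^ 16 ≤ (r : ℝ) + 1 := by linarith
      have h7 : (1 : ℝ) ≤ 1 / 10 ^ 16 * ((r : ℝ) + 1) := by
        rw [one_div, inv_mul_eq_div, le_div_iff₀ hD, one_mul]
        exact this
      linarith
    have h7 : (1 - 1 / 10 ^ 13) / ((r : ℝ) + 1) * ((1 / 10 - 4 / 10 ^ 16) * (10 * r * x)) =
        ((1 - 1 / 10 ^ 13) * (1 - 40 / 10 ^ 16)) * ((r : ℝ) / ((r : ℝ) + 1)) * x := by
      field_simp
      ring
    rw [h7]
    apply mul_le_mul_of_nonneg_right _ hx0
    have h8 : ((1 - 1 / 10 ^ 13) * (1 - 40 / 10 ^ 16) : ℝ) * (1 - 1 / 10 ^ 16) ≤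
        ((1 - 1 / 10 ^ 13) * (1 - 40 / 10 ^ 16)) * ((r : ℝ) / ((r : ℝ) + 1)) :=
      mul_le_mul_of_nonneg_left h6 (by norm_num)
    refine le_trans ?_ h8
    norm_num
  -- (b)
  have hb : ∀ e, ∑ i, M1 i e (bv (flp e)) ≤ 2 / 10 ^ 13 * x := by
    intro e
    have h1 : ∑ i, M1 i (flp e) (bv (flp e)) + ∑ i, M1 i e (bv (flp e)) ≤ x := s3 e
    have h2 := ha (flp e)
    linarith
  -- (c)
  have hsq : Real.sqrt (8 * (2 / 10 ^ 13)) ≤ 13 / 10 ^ 7 := by
    rw [Real.sqrt_le_left (by positivity)]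
    norm_num
  have hcc : ∀ e e', bv e' = bv (flp e) → ∑ i, min (m i e) (m i e') ≤ 3 / 10 ^ 7 * N := by
    classical
    intro e e' hee
    let G : Finset ι := univ.filter fun i => 0 < m i e ∧ 0 < m i e' ∧ kl i e ≤ 10 ^ 16 * m i e ∧
      kl i e' ≤ 10 ^ 16 * m i e' ∧ M1 i e (bv e) ≤ m i e ∧ M1 i e' (bv e') ≤ m i e'
    have h1 : ∑ i ∈ G, min (m i e) (m i e') ≤
        ((r : ℝ) + 1) * x * Real.sqrt (8 * (2 / 10 ^ 13)) := by
      apply hO P r ι A B c e e' G (2 / 10 ^ 13) hr1 hP2 hch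
      · intro i hi
        obtain ⟨-, g1, g2, g3, g4, g5, g6⟩ := Finset.mem_filter.1 hi
        exact hn2 P (A i) (B i) (c i) e e' (by omega) (hA i) (hBB i) g1 g2 g3 g4 g5 g6
      · positivity
      · have := hb e
        rw [← hee] at this
        exact this
    have h2 : ∀ i ∈ Gᶜ, min (m i e) (m i e') ≤ (kl i e + kl i e') / 10 ^ 16 +
        (M1 i e (bv e) + M1 i e' (bv e')) := by
      intro i hi
      have k1 : 0 ≤ kl i e / 10 ^ 16 := div_nonneg (hkl0 i e) hD.le
      have k2 : 0 ≤ kl i e' / 10 ^ 16 := div_nonneg (hkl0 i e') hD.le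
      have k3 := hM0 i e (bv e)
      have k4 := hM0 i e' (bv e')
      have k5 := min_le_left (m i e) (m i e')
      have k6 := min_le_right (m i e) (m i e')
      rw [add_div]
      by_contra hcon
      push Not at hcon
      apply Finset.mem_compl.1 hi
      have q1 : kl i e / 10 ^ 16 ≤ m i e := by linarith
      have q2 : kl i e' / 10 ^ 16 ≤ m i e' := by linarith
      rw [div_le_iff₀ hD] at q1 q2
      exact Finset.mem_filter.2 ⟨mem_univ i, by linarith, by linarith, by linarith, by linarith,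
        by linarith, by linarith⟩
    have h3 : ∑ i ∈ Gᶜ, min (m i e) (m i e') ≤ (2 * N + 2 * N) / 10 ^ 16 + (x + x) := by
      refine (Finset.sum_le_sum h2).trans ?_
      refine (Finset.sum_le_sum_of_subset_of_nonneg (Finset.subset_univ _) fun i _ _ =>
        add_nonneg (div_nonneg (add_nonneg (hkl0 i e) (hkl0 i e')) hD.le)
          (add_nonneg (hM0 i e _) (hM0 i e' _))).trans ?_
      rw [Finset.sum_add_distrib, ← Finset.sum_div, Finset.sum_add_distrib,
        Finset.sum_add_distrib]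
      apply add_le_add
      · exact div_le_div_of_nonneg_right (add_le_add (hkls e) (hkls e')) hD.le
      · exact add_le_add (s2 e (bv e)) (s2 e' (bv e'))
    have h4 := Finset.sum_add_sum_compl G fun i => min (m i e) (m i e')
    rw [← h4]
    have h5 : ((r : ℝ) + 1) * x * Real.sqrt (8 * (2 / 10 ^ 13)) ≤
        ((r : ℝ) + 1) * x * (13 / 10 ^ 7) :=
      mul_le_mul_of_nonneg_left hsq (by positivity)
    have h6 : ((r : ℝ) + 1) * x ≤ 2 * (r * x) := by nlinarith
    have h7 : x * 10 ^ 16 ≤ r * x := by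
      have := mul_le_mul_of_nonneg_right hr16 hx0
      linarith
    have h8 : r * x = N / 10 := by
      rw [hNx]
      ring
    rw [h8] at h6 h7
    have h9 : x ≤ N / 10 / 10 ^ 16 := by
      rw [le_div_iff₀ hD]
      exact h7
    have h10 : ((r : ℝ) + 1) * x * (13 / 10 ^ 7) ≤ 2 * (N / 10) * (13 / 10 ^ 7) :=
      mul_le_mul_of_nonneg_right h6 (by positivity)
    have h11 : (2 * N + 2 * N) / 10 ^ 16 + (N / 10 / 10 ^ 16 + N / 10 / 10 ^ 16) +
        2 * (N / 10) * (13 / 10 ^ 7) ≤ 3 / 10 ^ 7 * N := by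
      norm_num
      linarith
    linarith
  refine ⟨?_, ?_⟩
  · have h1 : ∑ i, bad i ≤ 2 * N / 10 ^ 16 := by
      rw [le_div_iff₀ hD]
      linarith
    refine h1.trans ?_
    norm_num
    linarith
  · show ∑ i, (∑ e, ∑ e', if bv e' = bv (flp e) then min (m i e) (m i e') else 0) ≤ N / 1000
    have h1 : ∑ i, (∑ e, ∑ e', if bv e' = bv (flp e) then min (m i e) (m i e') else 0) =
        ∑ e : Ed, ∑ e' : Ed, ∑ i, (if bv e' = bv (flp e) then min (m i e) (m i e') else 0) := by
      rw [Finset.sum_comm]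
      apply Finset.sum_congr rfl
      intro e _
      rw [Finset.sum_comm]
    rw [h1]
    have h2 : ∀ e e' : Ed, ∑ i, (if bv e' = bv (flp e) then min (m i e) (m i e') else 0) ≤
        3 / 10 ^ 7 * N := by
      intro e e'
      by_cases h : bv e' = bv (flp e)
      · simp only [if_pos h]
        exact hcc e e' h
      · simp only [if_neg h, Finset.sum_const_zero]
        positivity
    refine (Finset.sum_le_sum fun e _ => Finset.sum_le_sum fun e' _ => h2 e e').trans ?_
    rw [Finset.sum_const, Finset.sum_const, Finset.card_univ]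
    have h3 : Fintype.card Ed = 10 := by decide
    rw [h3, nsmul_eq_mul, nsmul_eq_mul]
    norm_num
    linarith

end Pool.Agent.Q206.IC
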