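import Pool.Agent.Q206.IC.Cnt

/-!
# Project IC of helper225, job LEAF
-/

set_option autoImplicit false

namespace Pool.Agent.Q206.IC

open Finset Pool.Agent.Q225.IC

section
variable {P : Type} [Fintype P] [DecidableEq P] {r : ℕ}

open Classical in
/-- the inputs of the leaf with good address different from `c` -/
noncomputable def ss (A : XX P → ℝ) (B : YY P r → ℝ) (c : P) : Finset (Ed × P × P × Tb P r) :=
  univ.filter fun t => ok t.2.1 t.2.2.1 t.2.2.2 ∧ t.2.1 ≠ c ∧ A (xin t.1 t.2.1 t.2.2.1) ≠ 0 ∧
    B (bv t.1, t.2.2.2) ≠ 0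

/-- the mass of an input -/
noncomputable def pp (A : XX P → ℝ) (B : YY P r → ℝ) (t : Ed × P × P × Tb P r) : ℝ :=
  A (xin t.1 t.2.1 t.2.2.1) * B (bv t.1, t.2.2.2)

theorem split (A : XX P → ℝ) (B : YY P r → ℝ) (c : P) (F : ℝ → ℝ) (hF : F 0 = 0) :
    ∑ e : Ed, ∑ w : P, ∑ v : P, ∑ z : Tb P r,
      (if ok w v z then F (A (xin e w v) * B (bv e, z)) else 0) =
    ∑ e : Ed, ∑ v : P, ∑ z : Tb P r,
      (if ok c v z then F (A (xin e c v) * B (bv e, z)) else 0) + ∑ t ∈ ss A B c, F (pp A B t) := by
  classical
  have hprod : ∀ f : Ed × P × P × Tb P r → ℝ, ∑ t, f t = ∑ e : Ed, ∑ y : P × P × Tb P r, f (e, y) :=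
    fun f => Fintype.sum_prod_type f
  have hprod2 : ∀ f : P × P × Tb P r → ℝ, ∑ t, f t = ∑ w : P, ∑ y : P × Tb P r, f (w, y) :=
    fun f => Fintype.sum_prod_type f
  unfold ss
  rw [Finset.sum_filter, hprod, ← Finset.sum_add_distrib]
  apply Finset.sum_congr rfl
  intro e _
  rw [hprod2, ← Finset.add_sum_erase univ _ (mem_univ c),
    ← Finset.add_sum_erase univ (fun w : P => ∑ y : P × Tb P r,
      if ok (e, w, y).2.1 (e, w, y).2.2.1 (e, w, y).2.2.2 ∧ (e, w, y).2.1 ≠ c ∧
        A (xin (e, w, y).1 (e, w, y).2.1 (e, w, y).2.2.1) ≠ 0 ∧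
          B (bv (e, w, y).1, (e, w, y).2.2.2) ≠ 0 then F (pp A B (e, w, y)) else 0) (mem_univ c)]
  congr 1
  have h0 : (∑ y : P × Tb P r,
      if ok (e, c, y).2.1 (e, c, y).2.2.1 (e, c, y).2.2.2 ∧ (e, c, y).2.1 ≠ c ∧
        A (xin (e, c, y).1 (e, c, y).2.1 (e, c, y).2.2.1) ≠ 0 ∧
          B (bv (e, c, y).1, (e, c, y).2.2.2) ≠ 0 then F (pp A B (e, c, y)) else 0) = 0 :=
    Finset.sum_eq_zero fun y _ => if_neg fun h => h.2.1 rfl
  rw [h0, zero_add]
  apply Finset.sum_congr rfl
  intro w hw
  have hwc : w ≠ c := Finset.ne_of_mem_erase hw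
  rw [Fintype.sum_prod_type]
  apply Finset.sum_congr rfl
  intro v _
  apply Finset.sum_congr rfl
  intro z _
  show (if ok w v z then F (A (xin e w v) * B (bv e, z)) else 0) =
    if ok w v z ∧ w ≠ c ∧ A (xin e w v) ≠ 0 ∧ B (bv e, z) ≠ 0 then
      F (A (xin e w v) * B (bv e, z)) else 0
  by_cases hok : ok w v z
  · by_cases hA : A (xin e w v) = 0
    · rw [if_neg (fun h => h.2.2.1 hA : ¬ (ok w v z ∧ w ≠ c ∧ A (xin e w v) ≠ 0 ∧ B (bv e, z) ≠ 0)),
        hA, zero_mul, hF, ite_self]
    · by_cases hB : B (bv e, z) = 0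
      · rw [if_neg (fun h => h.2.2.2 hB :
          ¬ (ok w v z ∧ w ≠ c ∧ A (xin e w v) ≠ 0 ∧ B (bv e, z) ≠ 0)), hB, mul_zero, hF, ite_self]
      · rw [if_pos hok, if_pos ⟨hok, hwc, hA, hB⟩]
  · rw [if_neg hok, if_neg fun h => hok h.1]

theorem ss_card (A : XX P → ℝ) (B : YY P r → ℝ) (c : P) {K : ℝ}
    (h : ∀ e : Ed, ∀ s : Finset (P × P × Tb P r), (∀ t ∈ s, ok t.1 t.2.1 t.2.2 ∧ t.1 ≠ c ∧
      A (xin e t.1 t.2.1) ≠ 0 ∧ B (bv e, t.2.2) ≠ 0) → (s.card : ℝ) ≤ K) :
    ((ss A B c).card : ℝ) ≤ 10 * K := by
  classical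
  unfold ss
  rw [← Finset.sum_boole, Fintype.sum_prod_type]
  have h1 : ∀ e : Ed, (∑ y : P × P × Tb P r, if ok (e, y).2.1 (e, y).2.2.1 (e, y).2.2.2 ∧
      (e, y).2.1 ≠ c ∧ A (xin (e, y).1 (e, y).2.1 (e, y).2.2.1) ≠ 0 ∧
        B (bv (e, y).1, (e, y).2.2.2) ≠ 0 then (1 : ℝ) else 0) ≤ K := by
    intro e
    rw [Finset.sum_boole]
    apply h e
    intro t ht
    exact (Finset.mem_filter.1 ht).2
  refine (Finset.sum_le_sum fun e _ => h1 e).trans ?_
  rw [Finset.sum_const, Finset.card_univ]
  have h3 : Fintype.card Ed = 10 := by decide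
  rw [h3, nsmul_eq_mul]
  norm_num

end

theorem card_le_filter {α : Type*} (p : α → Prop) (inst : DecidablePred p) (S s : Finset α)
    (h : ∀ t ∈ s, t ∈ S ∧ p t) : s.card ≤ (@Finset.filter α p inst S).card :=
  Finset.card_le_card fun t ht => Finset.mem_filter.2 (h t ht)

theorem t_LEAF (hR : S_RECT) : S_LEAF := by
  classical
  intro P _ _ r A B hr hn hA hB ho
  have hAB : ∀ x y, 0 ≤ A x * B y := fun x y => mul_nonneg (hA x) (hB y)
  have hmm : ∀ w e, 0 ≤ mm A B w e := fun w e =>
    Finset.sum_nonneg fun v _ => Finset.sum_nonneg fun z _ => by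
      split_ifs
      · exact hAB _ _
      · exact le_rfl
  have hn2 : 2 ≤ Fintype.card P := by omega
  have hn2' : (2 : ℝ) ≤ Fintype.card P := by exact_mod_cast hn2
  have hr' : (1 : ℝ) ≤ r := by exact_mod_cast hr
  obtain ⟨c0⟩ : Nonempty P := Fintype.card_pos_iff.1 (by omega)
  have hTt0 : 0 ≤ Tt A B := Finset.sum_nonneg fun e _ => Finset.sum_nonneg fun w _ => hmm w e
  rcases hTt0.eq_or_lt with hT | hT
  · -- no mass
    have h1 : ∀ e w, mm A B w e = 0 := by
      intro e w
      have h2 := (Finset.sum_eq_zero_iff_of_nonneg fun e _ =>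
        Finset.sum_nonneg fun w _ => hmm w e).1 hT.symm e (mem_univ e)
      exact (Finset.sum_eq_zero_iff_of_nonneg fun w _ => hmm w e).1 h2 w (mem_univ w)
    have h2 : ∀ e w v (z : Tb P r), ok w v z → A (xin e w v) * B (bv e, z) = 0 := by
      intro e w v z hok
      have h3 := (Finset.sum_eq_zero_iff_of_nonneg fun v _ => Finset.sum_nonneg fun z _ => by
        split_ifs
        · exact hAB _ _
        · exact le_rfl).1 (h1 e w) v (mem_univ v)
      have h4 := (Finset.sum_eq_zero_iff_of_nonneg fun z _ => by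
        split_ifs
        · exact hAB _ _
        · exact le_rfl).1 h3 z (mem_univ z)
      rwa [if_pos hok] at h4
    have h3 : Ll A B = 0 := by
      refine Finset.sum_eq_zero fun e _ => Finset.sum_eq_zero fun w _ => Finset.sum_eq_zero
        fun v _ => Finset.sum_eq_zero fun z _ => ?_
      by_cases hok : ok w v z
      · rw [if_pos hok, h2 e w v z hok, zero_mul]
      · rw [if_neg hok]
    have h4 : ∀ e, KL A B c0 e = 0 := by
      intro e
      refine Finset.sum_eq_zero fun v _ => Finset.sum_eq_zero fun z _ => ?_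
      by_cases hok : ok c0 v z
      · rw [if_pos hok, h2 e c0 v z hok, zero_mul]
      · rw [if_neg hok]
    refine ⟨c0, ?_, ?_⟩
    · rw [← hT]
      simp [h1]
    · rw [← hT, h3]
      simp [h1, h4]
  · -- the output is true
    obtain ⟨o, ho⟩ := ho
    have ho' : o = true := by
      by_contra hcon
      apply hT.ne'
      refine Finset.sum_eq_zero fun e _ => Finset.sum_eq_zero fun w _ => Finset.sum_eq_zero
        fun v _ => Finset.sum_eq_zero fun z _ => ?_
      by_cases hok : ok w v z
      · rw [if_pos hok]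
        by_contra h1
        have h2 := ho (xin e w v) (bv e, z) (left_ne_zero_of_mul h1) (right_ne_zero_of_mul h1)
        apply hcon
        rw [← h2]
        unfold FF
        rw [decide_eq_true_iff]
        obtain ⟨a, i⟩ := e
        rcases i with _ | _
        · exact Or.inl hok.2.1
        · exact Or.inr hok.2.1
      · rw [if_neg hok]
    subst ho'
    obtain ⟨c, hc⟩ := hR P r (fun x => A x ≠ 0) (fun y => B y ≠ 0) hr hn ho
    have hR0 : (0 : ℝ) < (r : ℝ) + 1 := by positivity
    have hNc : 0 < Nc P r := by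
      unfold Nc
      have : (0 : ℝ) < (Fintype.card P : ℝ) - 1 := by linarith
      positivity
    have hNS : NS P r = 10 * Fintype.card P * Nc P r := by
      unfold NS Nc
      ring
    have hNS0 : 0 < NS P r := by
      rw [hNS]
      positivity
    -- totals
    have hs1 : Tt A B = ∑ e, mm A B c e + ∑ t ∈ ss A B c, pp A B t := split A B c (fun x => x) rfl
    have hs2 : Ll A B = ∑ e : Ed, ∑ v : P, ∑ z : Tb P r, (if ok c v z then
        (A (xin e c v) * B (bv e, z)) * Real.log (A (xin e c v) * B (bv e, z) * NS P r / Tt A B)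
        else 0) + ∑ t ∈ ss A B c, pp A B t * Real.log (pp A B t * NS P r / Tt A B) :=
      split A B c (fun x => x * Real.log (x * NS P r / Tt A B)) (zero_mul _)
    set bad := ∑ t ∈ ss A B c, pp A B t with hbad
    have hpp : ∀ t, 0 ≤ pp A B t := fun t => hAB _ _
    have hbad0 : 0 ≤ bad := Finset.sum_nonneg fun t _ => hpp t
    have hbadT : Tt A B - ∑ e, mm A B c e = bad := by
      rw [hs1]
      ring
    refine ⟨c, by rw [hbadT]; exact hbad0, ?_⟩
    rw [hbadT, hs2]
    -- first part
    have hp1 : ∀ e : Ed, (∑ v : P, ∑ z : Tb P r, (if ok c v z then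
        (A (xin e c v) * B (bv e, z)) * Real.log (A (xin e c v) * B (bv e, z) * NS P r / Tt A B)
        else 0)) = KL A B c e + mm A B c e * Real.log (Fintype.card P) +
          mm A B c e * Real.log (10 * mm A B c e / Tt A B) := by
      intro e
      rcases (hmm c e).eq_or_lt with hm | hm
      · have h2 : ∀ v (z : Tb P r), ok c v z → A (xin e c v) * B (bv e, z) = 0 := by
          intro v z hok
          have h3 := (Finset.sum_eq_zero_iff_of_nonneg fun v _ => Finset.sum_nonneg fun z _ => by
            split_ifs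
            · exact hAB _ _
            · exact le_rfl).1 hm.symm v (mem_univ v)
          have h4 := (Finset.sum_eq_zero_iff_of_nonneg fun z _ => by
            split_ifs
            · exact hAB _ _
            · exact le_rfl).1 h3 z (mem_univ z)
          rwa [if_pos hok] at h4
        have h3 : KL A B c e = 0 := by
          refine Finset.sum_eq_zero fun v _ => Finset.sum_eq_zero fun z _ => ?_
          by_cases hok : ok c v z
          · rw [if_pos hok, h2 v z hok, zero_mul]
          · rw [if_neg hok]
        rw [← hm, h3, Finset.sum_eq_zero]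
        · simp
        · intro v _
          refine Finset.sum_eq_zero fun z _ => ?_
          by_cases hok : ok c v z
          · rw [if_pos hok, h2 v z hok, zero_mul]
          · rw [if_neg hok]
      · have h5 : mm A B c e * Real.log (Fintype.card P) +
            mm A B c e * Real.log (10 * mm A B c e / Tt A B) =
            mm A B c e * Real.log (10 * Fintype.card P * mm A B c e / Tt A B) := by
          rw [← mul_add, ← Real.log_mul (by positivity) (by positivity)]
          congr 2
          ring
        rw [add_assoc, h5]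
        conv_rhs => rw [show mm A B c e * Real.log (10 * Fintype.card P * mm A B c e / Tt A B) =
          ∑ v : P, ∑ z : Tb P r, (if ok c v z then A (xin e c v) * B (bv e, z) else 0) *
            Real.log (10 * Fintype.card P * mm A B c e / Tt A B) from by
              simp only [← Finset.sum_mul]
              rfl]
        unfold KL
        rw [← Finset.sum_add_distrib]
        apply Finset.sum_congr rfl
        intro v _
        rw [← Finset.sum_add_distrib]
        apply Finset.sum_congr rfl
        intro z _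
        by_cases hok : ok c v z
        · rw [if_pos hok, if_pos hok, if_pos hok]
          rcases (hAB (xin e c v) (bv e, z)).eq_or_lt with hp | hp
          · rw [← hp]
            ring
          · rw [← mul_add, ← Real.log_mul (by positivity) (by positivity)]
            congr 2
            rw [hNS]
            field_simp
        · rw [if_neg hok, if_neg hok, if_neg hok]
          ring
    rw [Finset.sum_congr rfl fun e _ => hp1 e, Finset.sum_add_distrib, Finset.sum_add_distrib,
      ← Finset.sum_mul]
    -- second part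
    have hK0 : (0 : ℝ) < 2 * Fintype.card P * (r * ((r : ℝ) + 1) ^ (Fintype.card P - 2)) /
        ((r : ℝ) + 1) := by positivity
    have hcard : ((ss A B c).card : ℝ) ≤ 10 *
        (2 * Fintype.card P * (r * ((r : ℝ) + 1) ^ (Fintype.card P - 2)) / ((r : ℝ) + 1)) := by
      apply ss_card
      intro e s hs
      rw [le_div_iff₀ hR0]
      have h2 : (r + 1) * s.card ≤ 2 * Fintype.card P * (r * (r + 1) ^ (Fintype.card P - 2)) := by
        refine le_trans (Nat.mul_le_mul_left (r + 1) (card_le_filter _ _ _ _ ?_)) (hc e)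
        intro t ht
        exact ⟨mem_univ t, hs t ht⟩
      have h3 : (((r + 1) * s.card : ℕ) : ℝ) ≤
          ((2 * Fintype.card P * (r * (r + 1) ^ (Fintype.card P - 2)) : ℕ) : ℝ) := by
        exact_mod_cast h2
      push_cast at h3
      linarith
    have h6 := ls_card (ss A B c) (pp A B) (fun t _ => hpp t) (c := NS P r / Tt A B)
      (by positivity) (by positivity) hcard
    rw [← hbad] at h6
    have h7 : ∑ t ∈ ss A B c, pp A B t * Real.log (NS P r / Tt A B * pp A B t) =
        ∑ t ∈ ss A B c, pp A B t * Real.log (pp A B t * NS P r / Tt A B) := by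
      apply Finset.sum_congr rfl
      intro t _
      congr 2
      ring
    rw [h7] at h6
    have h8 : bad * Real.log (Fintype.card P) + bad * Real.log (((r : ℝ) + 1) / 4) +
        bad * Real.log (bad / Tt A B) ≤ bad * Real.log (NS P r / Tt A B * (bad / (10 *
        (2 * Fintype.card P * (r * ((r : ℝ) + 1) ^ (Fintype.card P - 2)) / ((r : ℝ) + 1))))) := by
      rcases hbad0.eq_or_lt with hb | hb
      · rw [← hb]
        simp
      · rw [← mul_add, ← mul_add, ← Real.log_mul (by positivity) (by positivity),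
          ← Real.log_mul (by positivity) (by positivity)]
        apply mul_le_mul_of_nonneg_left _ hb.le
        apply Real.log_le_log (by positivity)
        have e1 : NS P r / Tt A B * (bad / (10 *
            (2 * Fintype.card P * (r * ((r : ℝ) + 1) ^ (Fintype.card P - 2)) / ((r : ℝ) + 1)))) =
            ((Fintype.card P : ℝ) - 1) / 2 * ((r : ℝ) + 1) * (bad / Tt A B) := by
          unfold NS
          have h9 : (r : ℝ) ≠ 0 := by positivity
          field_simp
        rw [e1]
        have h10 : (Fintype.card P : ℝ) * (((r : ℝ) + 1) / 4) ≤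
            ((Fintype.card P : ℝ) - 1) / 2 * ((r : ℝ) + 1) := by
          nlinarith
        exact mul_le_mul_of_nonneg_right h10 (by positivity)
    have h9 : Tt A B * Real.log (Fintype.card P) =
        (∑ e, mm A B c e) * Real.log (Fintype.card P) + bad * Real.log (Fintype.card P) := by
      rw [← add_mul, ← hs1]
    linarith

end Pool.Agent.Q206.IC
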